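import Pool.Agent.R906.TTForce

/-!
MP_c87228_lc, Q1: a σ-ideal `I` on `ℕ × ℕ` with `P(X)/I` atomless, all of whose generic
ultrafilters are Tukey-top.
-/

namespace Pool.Agent.Results.MP_c87228_lc.TukeyTopGeneric

open Pool.Agent.R906.TT

theorem result : ∃ (I : Set (Set (ℕ × ℕ))) (hI : IsIdeal I), IsSigma I ∧ Atomless I ∧
    letI : Preorder (Pos I) := posPreorder hI
    ∀ p : Pos I, p ∈ NoNewSubsets (Pos I) ℕ ∧ p ∈ NoNewSubsets (Pos I) (ℕ × ℕ) ∧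
      p ∈ IsUltra (gen I) ∧ p ∈ TukeyTop (gen I) :=
  ⟨II, II_ideal, II_sigma, II_atomless, fun p => ⟨noNew p, noNew p, gen_ultra p, tukeyTop p⟩⟩

end Pool.Agent.Results.MP_c87228_lc.TukeyTopGeneric
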